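import Pool.Agent.H716R2.MixK

set_option autoImplicit false
set_option linter.unusedSectionVars false
open MeasureTheory Filter Topology
open Pool.Agent.H716R2
open scoped ComplexConjugate

namespace Pool.Agent.TH250.Rok

variable {X : Type*} [MeasurableSpace X]

theorem mixK_mono {μ : Measure X} [IsProbabilityMeasure μ] {T : X ≃ᵐ X} {k j : ℕ}
    (h : MixK μ T k) (hjk : j ≤ k) : MixK μ T j := by
  intro A hA ε hε
  let A' : ℕ → Set X := fun i => if i ≤ j then A i else Set.univ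
  obtain ⟨N, hN⟩ := h A' (by
    intro i
    simp only [A']
    split_ifs
    exacts [hA i, MeasurableSet.univ]) ε hε
  refine ⟨N, fun m hm => ?_⟩
  let m' : ℕ → ℕ := fun i => if i < j then m i else N
  have h1 := hN m' (by
    intro i hi
    simp only [m']
    split_ifs with h2
    exacts [hm i h2, le_rfl])
  have hsum : ∀ i, i ≤ j → ∑ l ∈ Finset.range i, m' l = ∑ l ∈ Finset.range i, m l := by
    intro i hi
    refine Finset.sum_congr rfl (fun l hl => ?_)
    have := Finset.mem_range.1 hl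
    simp only [m']
    rw [if_pos (by omega)]
  have e1 : (⋂ i ∈ Finset.range (k + 1), (⇑T)^[∑ l ∈ Finset.range i, m' l] ⁻¹' A' i)
      = ⋂ i ∈ Finset.range (j + 1), (⇑T)^[∑ l ∈ Finset.range i, m l] ⁻¹' A i := by
    ext x
    simp only [Set.mem_iInter, Finset.mem_range]
    constructor
    · intro hx i hi
      have h2 := hx i (by omega)
      rw [hsum i (by omega)] at h2
      simp only [A'] at h2
      rwa [if_pos (by omega)] at h2
    · intro hx i hi
      by_cases hij : i ≤ j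
      · rw [hsum i hij]
        simp only [A']
        rw [if_pos hij]
        exact hx i (by omega)
      · simp only [A']
        rw [if_neg hij]
        exact Set.mem_univ _
  have e2 : ∏ i ∈ Finset.range (k + 1), μ.real (A' i) = ∏ i ∈ Finset.range (j + 1), μ.real (A i) := by
    symm
    rw [← Finset.prod_subset (Finset.range_subset_range.2 (show j + 1 ≤ k + 1 by omega))
      (f := fun i => μ.real (A' i))]
    · refine Finset.prod_congr rfl (fun i hi => ?_)
      have := Finset.mem_range.1 hi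
      simp only [A']
      rw [if_pos (by omega)]
    · intro i _ hi
      have : ¬ i ≤ j := by
        intro h2
        exact hi (Finset.mem_range.2 (by omega))
      simp only [A']
      rw [if_neg this]
      simp
  rw [e1, e2] at h1
  exact h1

/-- Mixing of multiplicity `k` for bounded functions and separated times in any order. -/
theorem mix_fin {μ : Measure X} [IsProbabilityMeasure μ] {T : X ≃ᵐ X}
    (hT : MeasurePreserving T μ μ) {k : ℕ} (h : MixK μ T k) {m : ℕ} (hm0 : 0 < m)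
    (hm : m ≤ k + 1) (g : Fin m → X → ℂ) (hg : ∀ i, Measurable (g i))
    (hb : ∀ i, ∃ C : ℝ, ∀ x, ‖g i x‖ ≤ C) {δ : ℝ} (hδ : 0 < δ) :
    ∃ L : ℕ, ∀ n : Fin m → ℕ, (∀ i j, i ≠ j → n i + L < n j ∨ n j + L < n i) →
      ‖∫ x, ∏ i, g i ((⇑T)^[n i] x) ∂μ - ∏ i, ∫ x, g i x ∂μ‖ < δ := by
  obtain ⟨j, rfl⟩ : ∃ j, m = j + 1 := ⟨m - 1, by omega⟩
  have hfact : FactSet μ T (j + 1) := factSet_of_mixK hT (mixK_mono h (by omega))
  by_contra hcon
  push Not at hcon
  choose n hn1 hn2 using hcon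
  have hfreq : ∃ σ : Equiv.Perm (Fin (j + 1)), ∃ᶠ L in atTop, Tuple.sort (n L) = σ := by
    by_contra h1
    push Not at h1
    have h2 : ∀ᶠ L in atTop, ∀ σ : Equiv.Perm (Fin (j + 1)), Tuple.sort (n L) ≠ σ := by
      rw [Filter.eventually_all]
      intro σ
      exact h1 σ
    obtain ⟨L, hL⟩ := h2.exists
    exact hL _ rfl
  obtain ⟨σ, hσ⟩ := hfreq
  obtain ⟨φ, hφ1, hφ2⟩ := Filter.extraction_of_frequently_atTop hσ
  have hs : Spread (fun l i => n (φ l) (σ i)) := by
    intro N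
    filter_upwards [eventually_ge_atTop N] with l hl
    intro i i' hii
    have h1 : N ≤ φ l := hl.trans (hφ1.id_le l)
    have hmono : n (φ l) (σ i) ≤ n (φ l) (σ i') := by
      have h2 := Tuple.monotone_sort (n (φ l))
      rw [hφ2 l] at h2
      exact h2 hii.le
    rcases hn1 (φ l) (σ i) (σ i') (fun h3 => hii.ne (σ.injective h3)) with h3 | h3
    · show n (φ l) (σ i) + N ≤ n (φ l) (σ i')
      omega
    · omega
  have hlim := fact_fun hT hfact hs (fun i => g (σ i)) (fun i => hg _) (fun i => hb _)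
  have e1 : ∀ l, ∫ x, ∏ i, g (σ i) ((⇑T)^[n (φ l) (σ i)] x) ∂μ
      = ∫ x, ∏ i, g i ((⇑T)^[n (φ l) i] x) ∂μ := by
    intro l
    refine integral_congr_ae (Eventually.of_forall (fun x => ?_))
    exact Equiv.prod_comp σ (fun i => g i ((⇑T)^[n (φ l) i] x))
  have e2 : ∏ i, ∫ x, g (σ i) x ∂μ = ∏ i, ∫ x, g i x ∂μ :=
    Equiv.prod_comp σ (fun i => ∫ x, g i x ∂μ)
  simp only [e1, e2] at hlim
  rw [Metric.tendsto_atTop] at hlim
  obtain ⟨l, hl⟩ := hlim δ hδ
  have h1 := hl l le_rfl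
  rw [dist_eq_norm] at h1
  exact absurd h1 (not_lt.2 (hn2 (φ l)))

/-- The same with an arbitrary finite index type. -/
theorem mix_fintype {μ : Measure X} [IsProbabilityMeasure μ] {T : X ≃ᵐ X}
    (hT : MeasurePreserving T μ μ) {k : ℕ} (h : MixK μ T k) {κ : Type*} [Fintype κ] [Nonempty κ]
    (hκ : Fintype.card κ ≤ k + 1) (g : κ → X → ℂ) (hg : ∀ i, Measurable (g i))
    (hb : ∀ i, ∃ C : ℝ, ∀ x, ‖g i x‖ ≤ C) {δ : ℝ} (hδ : 0 < δ) :
    ∃ L : ℕ, ∀ n : κ → ℕ, (∀ i j, i ≠ j → n i + L < n j ∨ n j + L < n i) →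
      ‖∫ x, ∏ i, g i ((⇑T)^[n i] x) ∂μ - ∏ i, ∫ x, g i x ∂μ‖ < δ := by
  classical
  let e := Fintype.equivFin κ
  obtain ⟨L, hL⟩ := mix_fin hT h Fintype.card_pos hκ (fun i => g (e.symm i)) (fun i => hg _)
    (fun i => hb _) hδ
  refine ⟨L, fun n hn => ?_⟩
  have h1 := hL (fun i => n (e.symm i)) (by
    intro i j hij
    exact hn _ _ (fun h2 => hij (e.symm.injective h2)))
  have e1 : ∫ x, ∏ i, g (e.symm i) ((⇑T)^[n (e.symm i)] x) ∂μ
      = ∫ x, ∏ i, g i ((⇑T)^[n i] x) ∂μ := by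
    refine integral_congr_ae (Eventually.of_forall (fun x => ?_))
    exact Equiv.prod_comp e.symm (fun i => g i ((⇑T)^[n i] x))
  have e2 : ∏ i, ∫ x, g (e.symm i) x ∂μ = ∏ i, ∫ x, g i x ∂μ :=
    Equiv.prod_comp e.symm (fun i => ∫ x, g i x ∂μ)
  rw [e1, e2] at h1
  exact h1

theorem integrable_of_bdd {μ : Measure X} [IsProbabilityMeasure μ] {f : X → ℂ}
    (hf : Measurable f) {C : ℝ} (hC : ∀ x, ‖f x‖ ≤ C) : Integrable f μ :=
  Integrable.of_bound hf.aestronglyMeasurable C (Eventually.of_forall hC)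

/-- A version of Bessel's inequality. -/
theorem bessel {μ : Measure X} [IsProbabilityMeasure μ] {α : Type*} [DecidableEq α]
    (M : Finset α) (u : α → X → ℂ) (hu : ∀ a, Measurable (u a)) (hub : ∀ a x, ‖u a x‖ ≤ 1)
    {ε : ℝ} (hε : 0 < ε)
    (hδ : ∀ a ∈ M, ∀ b ∈ M, a ≠ b → ‖∫ x, u a x * conj (u b x) ∂μ‖ ≤ ε ^ 2 / 2)
    (Φ : X → ℂ) (hΦ : Measurable Φ) (hΦb : ∀ x, ‖Φ x‖ ≤ 1)
    (hbad : ∀ a ∈ M, ε ≤ ‖∫ x, Φ x * u a x ∂μ‖) : (M.card : ℝ) * ε ^ 2 ≤ 2 := by
  classical
  let z : α → ℂ := fun a => ∫ x, Φ x * u a x ∂μ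
  let c : α → ℂ := fun a => conj (z a) / ‖z a‖
  have hzpos : ∀ a ∈ M, 0 < ‖z a‖ := fun a ha => lt_of_lt_of_le hε (hbad a ha)
  have hc : ∀ a ∈ M, ‖c a‖ = 1 := by
    intro a ha
    have := hzpos a ha
    simp only [c]
    rw [norm_div, RCLike.norm_conj, Complex.norm_real, norm_norm, div_self this.ne']
  have hcz : ∀ a ∈ M, c a * z a = (‖z a‖ : ℂ) := by
    intro a ha
    have h1 : (‖z a‖ : ℂ) ≠ 0 := by exact_mod_cast (hzpos a ha).ne'
    simp only [c]
    rw [div_mul_eq_mul_div, mul_comm, Complex.mul_conj, Complex.normSq_eq_norm_sq]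
    push_cast
    field_simp
  let S : X → ℂ := fun x => ∑ a ∈ M, c a * u a x
  have hSm : Measurable S := Finset.measurable_sum _ (fun a _ => (hu a).const_mul (c a))
  have hSb : ∀ x, ‖S x‖ ≤ M.card := by
    intro x
    calc ‖S x‖ ≤ ∑ a ∈ M, ‖c a * u a x‖ := norm_sum_le _ _
      _ ≤ ∑ a ∈ M, 1 := by
          refine Finset.sum_le_sum (fun a ha => ?_)
          rw [norm_mul, hc a ha, one_mul]
          exact hub a x
      _ = M.card := by simp
  have hΦu : ∀ a, Integrable (fun x => Φ x * u a x) μ := fun a =>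
    integrable_of_bdd (hΦ.mul (hu a)) (C := 1) (fun x => by
      rw [norm_mul]
      exact mul_le_one₀ (hΦb x) (norm_nonneg _) (hub a x))
  -- lower bound
  have h1 : ∫ x, Φ x * S x ∂μ = ((∑ a ∈ M, ‖z a‖ : ℝ) : ℂ) := by
    have e1 : (fun x => Φ x * S x) = fun x => ∑ a ∈ M, c a * (Φ x * u a x) := by
      ext x
      simp only [S]
      rw [Finset.mul_sum]
      exact Finset.sum_congr rfl (fun a _ => by ring)
    rw [e1, integral_finsetSum _ (fun a _ => (hΦu a).const_mul (c a))]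
    push_cast
    refine Finset.sum_congr rfl (fun a ha => ?_)
    rw [integral_const_mul]
    exact hcz a ha
  have h2 : (M.card : ℝ) * ε ≤ ∫ x, ‖S x‖ ∂μ := by
    have h3 : (M.card : ℝ) * ε ≤ ∑ a ∈ M, ‖z a‖ := by
      rw [← nsmul_eq_mul, ← Finset.sum_const]
      exact Finset.sum_le_sum (fun a ha => hbad a ha)
    have h4 : ∑ a ∈ M, ‖z a‖ = ‖∫ x, Φ x * S x ∂μ‖ := by
      rw [h1, Complex.norm_real, Real.norm_eq_abs, abs_of_nonneg
        (Finset.sum_nonneg (fun a _ => norm_nonneg _))]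
    rw [h4] at h3
    refine h3.trans ((norm_integral_le_integral_norm _).trans ?_)
    refine integral_mono_of_nonneg (Eventually.of_forall (fun x => norm_nonneg _))
      (integrable_of_bdd hSm hSb).norm (Eventually.of_forall (fun x => ?_))
    simp only [norm_mul]
    exact mul_le_of_le_one_left (norm_nonneg _) (hΦb x)
  -- Cauchy-Schwarz
  have hSi : Integrable (fun x => ‖S x‖) μ := (integrable_of_bdd hSm hSb).norm
  have hSq : Integrable (fun x => ‖S x‖ ^ 2) μ := by
    refine Integrable.of_bound (hSm.norm.pow_const 2).aestronglyMeasurable ((M.card : ℝ) ^ 2)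
      (Eventually.of_forall (fun x => ?_))
    rw [Real.norm_eq_abs, abs_of_nonneg (by positivity)]
    exact pow_le_pow_left₀ (norm_nonneg _) (hSb x) 2
  have h5 : (∫ x, ‖S x‖ ∂μ) ^ 2 ≤ ∫ x, ‖S x‖ ^ 2 ∂μ := by
    set I := ∫ x, ‖S x‖ ∂μ with hI
    have h6 : 0 ≤ ∫ x, (‖S x‖ - I) ^ 2 ∂μ := integral_nonneg (fun x => sq_nonneg _)
    have e2 : ∫ x, (‖S x‖ - I) ^ 2 ∂μ = ∫ x, ‖S x‖ ^ 2 ∂μ - I ^ 2 := by
      have e3 : (fun x => (‖S x‖ - I) ^ 2) = fun x => (‖S x‖ ^ 2 - 2 * I * ‖S x‖) + I ^ 2 := by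
        ext x; ring
      have hA : Integrable (fun x => ‖S x‖ ^ 2 - 2 * I * ‖S x‖) μ := hSq.sub (hSi.const_mul _)
      rw [e3, integral_add hA (integrable_const _),
        integral_sub hSq (hSi.const_mul _), integral_const_mul, ← hI]
      simp
      ring
    linarith
  -- upper bound
  have huu : ∀ a b, Integrable (fun x => u a x * conj (u b x)) μ := fun a b =>
    integrable_of_bdd ((hu a).mul (Complex.continuous_conj.measurable.comp (hu b))) (C := 1)
      (fun x => by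
        rw [norm_mul, RCLike.norm_conj]
        exact mul_le_one₀ (hub a x) (norm_nonneg _) (hub b x))
  have h7 : ((∫ x, ‖S x‖ ^ 2 ∂μ : ℝ) : ℂ)
      = ∑ a ∈ M, ∑ b ∈ M, c a * conj (c b) * ∫ x, u a x * conj (u b x) ∂μ := by
    rw [← integral_complex_ofReal]
    have e4 : (fun x => ((‖S x‖ ^ 2 : ℝ) : ℂ))
        = fun x => ∑ a ∈ M, ∑ b ∈ M, c a * conj (c b) * (u a x * conj (u b x)) := by
      ext x
      have e5 : ((‖S x‖ ^ 2 : ℝ) : ℂ) = S x * conj (S x) := by
        rw [Complex.mul_conj, Complex.normSq_eq_norm_sq]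
      rw [e5]
      simp only [S]
      rw [map_sum, Finset.sum_mul_sum]
      refine Finset.sum_congr rfl (fun a _ => Finset.sum_congr rfl (fun b _ => ?_))
      rw [map_mul]
      ring
    rw [e4, integral_finsetSum _ (fun a _ => integrable_finsetSum _
      (fun b _ => (huu a b).const_mul _))]
    refine Finset.sum_congr rfl (fun a _ => ?_)
    rw [integral_finsetSum _ (fun b _ => (huu a b).const_mul _)]
    refine Finset.sum_congr rfl (fun b _ => ?_)
    rw [integral_const_mul]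
  have h8 : ∫ x, ‖S x‖ ^ 2 ∂μ ≤ M.card + (M.card : ℝ) ^ 2 * (ε ^ 2 / 2) := by
    have h9 : ∫ x, ‖S x‖ ^ 2 ∂μ = ‖((∫ x, ‖S x‖ ^ 2 ∂μ : ℝ) : ℂ)‖ := by
      rw [Complex.norm_real, Real.norm_eq_abs, abs_of_nonneg
        (integral_nonneg (fun x => by positivity))]
    rw [h9, h7]
    calc ‖∑ a ∈ M, ∑ b ∈ M, c a * conj (c b) * ∫ x, u a x * conj (u b x) ∂μ‖
        ≤ ∑ a ∈ M, ∑ b ∈ M, ‖c a * conj (c b) * ∫ x, u a x * conj (u b x) ∂μ‖ :=
          (norm_sum_le _ _).trans (Finset.sum_le_sum (fun a _ => norm_sum_le _ _))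
      _ ≤ ∑ a ∈ M, ∑ b ∈ M, ((if a = b then 1 else 0) + ε ^ 2 / 2) := by
          refine Finset.sum_le_sum (fun a ha => Finset.sum_le_sum (fun b hb => ?_))
          rw [norm_mul, norm_mul, RCLike.norm_conj, hc a ha, hc b hb, one_mul, one_mul]
          by_cases hab : a = b
          · rw [if_pos hab]
            have h10 : ‖∫ x, u a x * conj (u b x) ∂μ‖ ≤ 1 := by
              have := norm_integral_le_of_norm_le_const (μ := μ) (f := fun x => u a x * conj (u b x))
                (C := 1) (Eventually.of_forall (fun x => by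
                  rw [norm_mul, RCLike.norm_conj]
                  exact mul_le_one₀ (hub a x) (norm_nonneg _) (hub b x)))
              simpa using this
            have : 0 ≤ ε ^ 2 / 2 := by positivity
            linarith
          · rw [if_neg hab, zero_add]
            exact hδ a ha b hb hab
      _ = M.card + (M.card : ℝ) ^ 2 * (ε ^ 2 / 2) := by
          simp only [Finset.sum_add_distrib, Finset.sum_const, Finset.sum_ite_eq]
          rw [Finset.sum_ite_mem]
          simp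
          ring
  have h11 : ((M.card : ℝ) * ε) ^ 2 ≤ M.card + (M.card : ℝ) ^ 2 * (ε ^ 2 / 2) :=
    (pow_le_pow_left₀ (by positivity) h2 2).trans (h5.trans h8)
  rcases Nat.eq_zero_or_pos M.card with h12 | h12
  · rw [h12]; simp
  · have h13 : (0 : ℝ) < M.card := by exact_mod_cast h12
    have h14 : (M.card : ℝ) * ((M.card : ℝ) * ε ^ 2) ≤ (M.card : ℝ) * 2 := by nlinarith
    exact le_of_mul_le_mul_left h14 h13

end Pool.Agent.TH250.Rok
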