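import Pool.Agent.TH250.Rok.Uniform

set_option autoImplicit false
set_option linter.unusedSectionVars false
open MeasureTheory Filter Topology
open Pool.Agent.H716R2
open scoped ComplexConjugate

namespace Pool.Agent.TH250.Rok

variable {X : Type*} [MeasurableSpace X]

theorem card_pi_le {l : ℕ} (S : Fin (l + 1) → Finset ℕ) (J : Finset (Fin (l + 1)))
    (hJ0 : (0 : Fin (l + 1)) ∉ J) {N : ℕ} (hS : ∀ i, i ≠ 0 → (S i).card ≤ N) :
    (Fintype.piFinset (fun i => if i ∈ J then ({0} : Finset ℕ) else S i)).card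
      ≤ (S 0).card * N ^ (l - J.card) := by
  classical
  rw [Fintype.card_piFinset, Fin.prod_univ_succ, if_neg hJ0]
  refine Nat.mul_le_mul_left _ ?_
  calc ∏ i : Fin l, (if i.succ ∈ J then ({0} : Finset ℕ) else S i.succ).card
      ≤ ∏ i : Fin l, (if i.succ ∈ J then 1 else N) := by
        refine Finset.prod_le_prod' (fun i _ => ?_)
        split_ifs
        · simp
        · exact hS _ (Fin.succ_ne_zero i)
    _ = N ^ (l - J.card) := by
        rw [Finset.prod_ite, Finset.prod_const_one, one_mul, Finset.prod_const]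
        congr 1
        have h1 : (Finset.univ.filter (fun i : Fin l => i.succ ∈ J)).card = J.card := by
          have h2 : (Finset.univ.filter (fun i : Fin l => i.succ ∈ J)).map
              (Fin.succEmb l) = J := by
            ext j
            simp only [Finset.mem_map, Finset.mem_filter, Finset.mem_univ, true_and]
            constructor
            · rintro ⟨i, hi, rfl⟩
              exact hi
            · intro hj
              have hj0 : j ≠ 0 := fun h3 => hJ0 (h3 ▸ hj)
              obtain ⟨i, rfl⟩ := Fin.exists_succ_eq.2 hj0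
              exact ⟨i, hj, rfl⟩
          rw [← h2, Finset.card_map]
          rw [h2]
        have h3 := Finset.card_filter_add_card_filter_not (s := (Finset.univ : Finset (Fin l)))
          (fun i : Fin l => i.succ ∈ J)
        rw [h1, Finset.card_univ, Fintype.card_fin] at h3
        omega

/-- **The number of failures.** -/
theorem count {μ : Measure X} [IsProbabilityMeasure μ] {T : X ≃ᵐ X}
    (hT : MeasurePreserving T μ μ) {k : ℕ} (h : MixK μ T k) (l : ℕ)
    (f : Fin (l + 1) → X → ℂ) (hf : ∀ i, Measurable (f i)) (hb : ∀ i x, ‖f i x‖ ≤ 1)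
    {ε : ℝ} (hε : 0 < ε) :
    ∃ C L : ℕ, ∀ (N : ℕ) (S : Fin (l + 1) → Finset ℕ), (∀ i, i ≠ 0 → (S i).card ≤ N) →
      ∀ P : Finset (Fin (l + 1) → ℕ), (∀ n ∈ P, (∀ i, n i ∈ S i) ∧
        (∀ i j, i ≠ j → n i + L < n j ∨ n j + L < n i) ∧
        ε ≤ ‖∫ x, ∏ i, f i ((⇑T)^[n i] x) ∂μ - ∏ i, ∫ x, f i x ∂μ‖) →
        P.card ≤ C * ((S 0).card * N ^ (l - (k + 1) / 2)) := by
  classical
  set r := (k + 1) / 2 with hr
  let m : Fin (l + 1) → ℂ := fun i => ∫ x, f i x ∂μ
  have hm : ∀ i, ‖m i‖ ≤ 1 := by
    intro i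
    have := norm_integral_le_of_norm_le_const (μ := μ) (Eventually.of_forall (hb i))
    simpa using this
  let g : Fin (l + 1) → X → ℂ := fun i x => (f i x - m i) / 2
  have hg : ∀ i, Measurable (g i) := fun i => ((hf i).sub_const _).div_const _
  have hgb : ∀ i x, ‖g i x‖ ≤ 1 := by
    intro i x
    simp only [g]
    rw [norm_div]
    have h1 := (norm_sub_le (f i x) (m i)).trans (add_le_add (hb i x) (hm i))
    have h2 : ‖(2 : ℂ)‖ = 2 := by simp
    rw [h2, div_le_one (by norm_num)]
    linarith
  have hfi : ∀ i, Integrable (f i) μ := fun i => integrable_of_bdd (hf i) (hb i)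
  have hg0 : ∀ i, ∫ x, g i x ∂μ = 0 := by
    intro i
    simp only [g]
    rw [integral_div, integral_sub (hfi i) (integrable_const _)]
    simp [m]
  set ε1 : ℝ := ε / 4 ^ (l + 1) with hε1
  have hε1pos : 0 < ε1 := by positivity
  -- the data attached to each set of indices
  have hdata : ∀ t : Finset (Fin (l + 1)), ∃ (J : Finset (Fin (l + 1))) (K L : ℕ),
      (t.card ≤ k + 1 → t.Nonempty → ∀ n : Fin (l + 1) → ℕ, Sep L t n →
        ‖∫ x, ∏ i ∈ t, g i ((⇑T)^[n i] x) ∂μ‖ < ε1) ∧
      (k + 1 < t.card → J ⊆ t ∧ (0 : Fin (l + 1)) ∉ J ∧ J.card = r ∧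
        ∀ Φ : X → ℂ, Measurable Φ → (∀ x, ‖Φ x‖ ≤ 1) →
        ∀ (b : Fin (l + 1) → ℕ) (P : Finset (Fin (l + 1) → ℕ)),
        (∀ a ∈ P, (∀ i, i ∉ J → a i = b i) ∧ Sep L J a ∧
          ε1 ≤ ‖∫ x, Φ x * ∏ i ∈ J, g i ((⇑T)^[a i] x) ∂μ‖) → P.card ≤ K) := by
    intro t
    by_cases ht : k + 1 < t.card
    · have h1 : r ≤ (t.erase 0).card := by
        have := Finset.pred_card_le_card_erase (s := t) (a := (0 : Fin (l + 1)))
        omega
      obtain ⟨J, hJ1, hJ2⟩ := Finset.exists_subset_card_eq h1
      obtain ⟨K, L, hKL⟩ := uniform hT h g hg hgb hg0 hε1pos r J hJ2 (by omega)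
      refine ⟨J, K, L, fun h2 => absurd ht (by omega), fun _ =>
        ⟨hJ1.trans (Finset.erase_subset _ _), fun h2 => ?_, hJ2, hKL⟩⟩
      exact (Finset.mem_erase.1 (hJ1 h2)).1 rfl
    · by_cases htn : t.Nonempty
      · have : Nonempty {i // i ∈ t} := ⟨⟨_, htn.choose_spec⟩⟩
        obtain ⟨L, hL⟩ := mix_fintype hT h (κ := {i // i ∈ t})
          (by rw [Fintype.card_coe]; omega) (fun i => g i) (fun i => hg i)
          (fun i => ⟨1, fun x => hgb i x⟩) hε1pos
        refine ⟨∅, 0, L, fun _ _ n hn => ?_, fun h2 => absurd h2 ht⟩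
        have h3 := hL (fun i => n i) (fun i j hij => hn i i.2 j j.2
          (fun h4 => hij (Subtype.ext h4)))
        have e1 : ∏ i : {i // i ∈ t}, ∫ x, g i x ∂μ = 0 := by
          refine Finset.prod_eq_zero (Finset.mem_univ ⟨_, htn.choose_spec⟩) ?_
          exact hg0 _
        rw [e1, sub_zero] at h3
        refine lt_of_le_of_lt (le_of_eq ?_) h3
        congr 1
        refine integral_congr_ae (Eventually.of_forall (fun x => ?_))
        exact (Finset.prod_coe_sort t (fun i => g i ((⇑T)^[n i] x))).symm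
      · exact ⟨∅, 0, 0, fun _ h2 => absurd h2 htn, fun h2 => absurd h2 ht⟩
  choose J K L hsmall hbig using hdata
  refine ⟨∑ t, K t, ∑ t, L t, fun N S hS P hP => ?_⟩
  have hLt : ∀ t, L t ≤ ∑ t, L t := fun t =>
    Finset.single_le_sum (fun _ _ => Nat.zero_le _) (Finset.mem_univ t)
  let Bt : Finset (Fin (l + 1)) → Finset (Fin (l + 1) → ℕ) := fun t =>
    P.filter (fun n => k + 1 < t.card ∧ ε1 ≤ ‖∫ x, ∏ i ∈ t, g i ((⇑T)^[n i] x) ∂μ‖)
  -- every failure comes from one of the sets of indices
  have hcover : P ⊆ Finset.univ.biUnion Bt := by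
    intro n hn
    obtain ⟨hn1, hn2, hn3⟩ := hP n hn
    simp only [Finset.mem_biUnion, Finset.mem_univ, true_and, Bt, Finset.mem_filter]
    by_contra hcon
    push Not at hcon
    have hall : ∀ t : Finset (Fin (l + 1)), t.Nonempty →
        ‖∫ x, ∏ i ∈ t, g i ((⇑T)^[n i] x) ∂μ‖ < ε1 := by
      intro t ht
      by_cases htk : k + 1 < t.card
      · exact hcon t hn htk
      · refine hsmall t (by omega) ht n (fun i _ j _ hij => ?_)
        have := hLt t
        rcases hn2 i j hij with h1 | h1
        · exact Or.inl (by omega)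
        · exact Or.inr (by omega)
    have hgi : ∀ t : Finset (Fin (l + 1)),
        Integrable (fun x => ∏ i ∈ t, g i ((⇑T)^[n i] x)) μ := fun t =>
      integrable_of_bdd (Finset.measurable_prod _ (fun i _ => (hg i).comp (iter_meas T (n i))))
        (fun x => norm_prod_le_one t _ (fun i => hgb i _))
    have hexp : ∫ x, ∏ i, f i ((⇑T)^[n i] x) ∂μ = ∑ t ∈ (Finset.univ : Finset (Fin (l + 1))).powerset,
        (2 ^ t.card * ∏ i ∈ Finset.univ \ t, m i) * ∫ x, ∏ i ∈ t, g i ((⇑T)^[n i] x) ∂μ := by
      have e1 : (fun x => ∏ i, f i ((⇑T)^[n i] x))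
          = fun x => ∑ t ∈ (Finset.univ : Finset (Fin (l + 1))).powerset,
            (2 ^ t.card * ∏ i ∈ Finset.univ \ t, m i) * ∏ i ∈ t, g i ((⇑T)^[n i] x) := by
        ext x
        have e2 : ∀ i, f i ((⇑T)^[n i] x) = 2 * g i ((⇑T)^[n i] x) + m i := by
          intro i
          simp only [g]
          ring
        rw [Finset.prod_congr rfl (fun i _ => e2 i), Finset.prod_add]
        refine Finset.sum_congr rfl (fun t _ => ?_)
        rw [Finset.prod_mul_distrib, Finset.prod_const]
        ring
      rw [e1, integral_finsetSum _ (fun t _ => (hgi t).const_mul _)]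
      refine Finset.sum_congr rfl (fun t _ => ?_)
      rw [integral_const_mul]
    have hdiff : ∫ x, ∏ i, f i ((⇑T)^[n i] x) ∂μ - ∏ i, ∫ x, f i x ∂μ
        = ∑ t ∈ (Finset.univ : Finset (Fin (l + 1))).powerset.erase ∅,
        (2 ^ t.card * ∏ i ∈ Finset.univ \ t, m i) * ∫ x, ∏ i ∈ t, g i ((⇑T)^[n i] x) ∂μ := by
      rw [hexp, ← Finset.add_sum_erase _ _ (Finset.empty_mem_powerset
        (Finset.univ : Finset (Fin (l + 1))))]
      simp [m]
    have hpc : ((Finset.univ : Finset (Fin (l + 1))).powerset.erase ∅).card < 2 ^ (l + 1) := by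
      rw [Finset.card_erase_of_mem (Finset.empty_mem_powerset _), Finset.card_powerset,
        Finset.card_univ, Fintype.card_fin]
      have : 0 < 2 ^ (l + 1) := by positivity
      omega
    have hlt : ‖∫ x, ∏ i, f i ((⇑T)^[n i] x) ∂μ - ∏ i, ∫ x, f i x ∂μ‖ < ε := by
      rw [hdiff]
      refine lt_of_le_of_lt (norm_sum_le _ _) ?_
      calc ∑ t ∈ (Finset.univ : Finset (Fin (l + 1))).powerset.erase ∅,
          ‖(2 ^ t.card * ∏ i ∈ Finset.univ \ t, m i) * ∫ x, ∏ i ∈ t, g i ((⇑T)^[n i] x) ∂μ‖
          ≤ ∑ t ∈ (Finset.univ : Finset (Fin (l + 1))).powerset.erase ∅, 2 ^ (l + 1) * ε1 := by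
            refine Finset.sum_le_sum (fun t ht => ?_)
            have htn : t.Nonempty := Finset.nonempty_iff_ne_empty.2 (Finset.ne_of_mem_erase ht)
            rw [norm_mul, norm_mul, norm_pow]
            have h2 : ‖(2 : ℂ)‖ = 2 := by simp
            rw [h2]
            have h3 : (2 : ℝ) ^ t.card ≤ 2 ^ (l + 1) := by
              refine pow_le_pow_right₀ (by norm_num) ?_
              simpa using Finset.card_le_univ t
            have h4 : ‖∏ i ∈ Finset.univ \ t, m i‖ ≤ 1 := norm_prod_le_one _ _ hm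
            have h5 := (hall t htn).le
            calc 2 ^ t.card * ‖∏ i ∈ Finset.univ \ t, m i‖
                  * ‖∫ x, ∏ i ∈ t, g i ((⇑T)^[n i] x) ∂μ‖
                ≤ 2 ^ (l + 1) * 1 * ε1 := by gcongr
              _ = 2 ^ (l + 1) * ε1 := by ring
        _ = ((Finset.univ : Finset (Fin (l + 1))).powerset.erase ∅).card * (2 ^ (l + 1) * ε1) := by
            rw [Finset.sum_const, nsmul_eq_mul]
        _ < (2 ^ (l + 1) : ℕ) * (2 ^ (l + 1) * ε1) := by
            have h6 : (((Finset.univ : Finset (Fin (l + 1))).powerset.erase ∅).card : ℝ)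
                < ((2 ^ (l + 1) : ℕ) : ℝ) := by exact_mod_cast hpc
            exact mul_lt_mul_of_pos_right h6 (by positivity)
        _ = ε := by
            rw [hε1]
            push_cast
            have h7 : (4 : ℝ) ^ (l + 1) = 2 ^ (l + 1) * 2 ^ (l + 1) := by
              rw [← mul_pow]; norm_num
            rw [h7]
            field_simp
    exact absurd hn3 (not_le.2 hlt)
  -- the size of each part
  have hpart : ∀ t, (Bt t).card ≤ ((S 0).card * N ^ (l - r)) * K t := by
    intro t
    by_cases htk : k + 1 < t.card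
    · obtain ⟨hJt, hJ0, hJc, hK⟩ := hbig t htk
      let ρ : (Fin (l + 1) → ℕ) → (Fin (l + 1) → ℕ) := fun n i => if i ∈ J t then 0 else n i
      have hmaps : ∀ n ∈ Bt t, ρ n ∈
          Fintype.piFinset (fun i => if i ∈ J t then ({0} : Finset ℕ) else S i) := by
        intro n hn
        simp only [Bt, Finset.mem_filter] at hn
        rw [Fintype.mem_piFinset]
        intro i
        simp only [ρ]
        split_ifs
        · simp
        · exact (hP n hn.1).1 i
      have hcard := Finset.card_le_mul_card_image_of_maps_to hmaps (K t) (by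
        intro b _
        refine hK (fun x => ∏ i ∈ t \ J t, g i ((⇑T)^[b i] x))
          (Finset.measurable_prod _ (fun i _ => (hg i).comp (iter_meas T (b i))))
          (fun x => norm_prod_le_one _ _ (fun i => hgb i _)) b _ ?_
        intro a ha
        rw [Finset.mem_filter] at ha
        obtain ⟨ha1, ha2⟩ := ha
        simp only [Bt, Finset.mem_filter] at ha1
        obtain ⟨ha3, _, ha4⟩ := ha1
        have hab : ∀ i, i ∉ J t → a i = b i := by
          intro i hi
          rw [← ha2]
          simp only [ρ]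
          rw [if_neg hi]
        refine ⟨hab, fun i _ j _ hij => ?_, ?_⟩
        · have := hLt t
          rcases (hP a ha3).2.1 i j hij with h1 | h1
          · exact Or.inl (by omega)
          · exact Or.inr (by omega)
        · refine ha4.trans (le_of_eq ?_)
          congr 1
          refine integral_congr_ae (Eventually.of_forall (fun x => ?_))
          simp only
          rw [← Finset.prod_sdiff hJt]
          congr 1
          refine Finset.prod_congr rfl (fun i hi => ?_)
          rw [hab i (Finset.mem_sdiff.1 hi).2])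
      have hpi := card_pi_le S (J t) hJ0 hS
      rw [hJc] at hpi
      calc (Bt t).card ≤ K t * _ := hcard
        _ ≤ K t * ((S 0).card * N ^ (l - r)) := Nat.mul_le_mul_left _ hpi
        _ = _ := Nat.mul_comm _ _
    · have : Bt t = ∅ := by
        refine Finset.filter_false_of_mem (fun n _ h1 => htk h1.1)
      rw [this]
      simp
  calc P.card ≤ (Finset.univ.biUnion Bt).card := Finset.card_le_card hcover
    _ ≤ ∑ t, (Bt t).card := Finset.card_biUnion_le
    _ ≤ ∑ t, ((S 0).card * N ^ (l - r)) * K t := Finset.sum_le_sum (fun t _ => hpart t)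
    _ = (∑ t, K t) * ((S 0).card * N ^ (l - r)) := by
        rw [← Finset.mul_sum, Nat.mul_comm]

end Pool.Agent.TH250.Rok
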