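import Pool.Agent.TH250.Rok.Basic

set_option autoImplicit false
set_option linter.unusedSectionVars false
open MeasureTheory Filter Topology
open Pool.Agent.H716R2
open scoped ComplexConjugate

namespace Pool.Agent.TH250.Rok

variable {X : Type*} [MeasurableSpace X]

/-- The times `n i`, `i ∈ J`, have pairwise distances greater than `L`. -/
def Sep {ι : Type*} (L : ℕ) (J : Finset ι) (n : ι → ℕ) : Prop :=
  ∀ i ∈ J, ∀ j ∈ J, i ≠ j → n i + L < n j ∨ n j + L < n i

/-- All times of `a` on `J` are at distance greater than `L` from all times of `b` on `J`. -/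
def Cross {ι : Type*} (L : ℕ) (J : Finset ι) (a b : ι → ℕ) : Prop :=
  ∀ i ∈ J, ∀ j ∈ J, a i + L < b j ∨ b j + L < a i

theorem Sep.mono {ι : Type*} {L L' : ℕ} {J J' : Finset ι} {n : ι → ℕ} (h : Sep L J n)
    (hL : L' ≤ L) (hJ : J' ⊆ J) : Sep L' J' n := by
  intro i hi j hj hij
  rcases h i (hJ hi) j (hJ hj) hij with h1 | h1
  · exact Or.inl (by omega)
  · exact Or.inr (by omega)

theorem Cross.symm {ι : Type*} {L : ℕ} {J : Finset ι} {a b : ι → ℕ} (h : Cross L J a b) :
    Cross L J b a := fun i hi j hj => (h j hj i hi).symm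

theorem norm_prod_le_one {ι : Type*} (J : Finset ι) (y : ι → ℂ) (hy : ∀ i, ‖y i‖ ≤ 1) :
    ‖∏ i ∈ J, y i‖ ≤ 1 := by
  rw [norm_prod]
  exact Finset.prod_le_one (fun i _ => norm_nonneg _) (fun i _ => hy i)

/-- The Gram matrix of products along separated times. -/
theorem gram {μ : Measure X} [IsProbabilityMeasure μ] {T : X ≃ᵐ X}
    (hT : MeasurePreserving T μ μ) {k : ℕ} (h : MixK μ T k) {ι : Type*} [DecidableEq ι]
    (g : ι → X → ℂ) (hg : ∀ i, Measurable (g i)) (hb : ∀ i x, ‖g i x‖ ≤ 1)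
    (h0 : ∀ i, ∫ x, g i x ∂μ = 0) {J : Finset ι} (hJ : J.Nonempty) (hJk : 2 * J.card ≤ k + 1)
    {δ : ℝ} (hδ : 0 < δ) :
    ∃ L : ℕ, ∀ a b : ι → ℕ, Sep L J a → Sep L J b → Cross L J a b →
      ‖∫ x, (∏ i ∈ J, g i ((⇑T)^[a i] x)) * conj (∏ i ∈ J, g i ((⇑T)^[b i] x)) ∂μ‖ ≤ δ := by
  classical
  let κ := {i // i ∈ J} ⊕ {i // i ∈ J}
  obtain ⟨i0, hi0⟩ := hJ
  have : Nonempty κ := ⟨Sum.inl ⟨i0, hi0⟩⟩
  let G : κ → X → ℂ := fun s => match s with
    | Sum.inl i => g i
    | Sum.inr i => fun x => conj (g i x)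
  have hG : ∀ s, Measurable (G s) := by
    rintro (i | i)
    · exact hg i
    · exact Complex.continuous_conj.measurable.comp (hg i)
  have hGb : ∀ s, ∃ C : ℝ, ∀ x, ‖G s x‖ ≤ C := by
    rintro (i | i)
    · exact ⟨1, fun x => hb i x⟩
    · refine ⟨1, fun x => ?_⟩
      simp only [G]
      rw [RCLike.norm_conj]
      exact hb i x
  have hcard : Fintype.card κ ≤ k + 1 := by
    simp only [κ, Fintype.card_sum, Fintype.card_coe]
    omega
  obtain ⟨L, hL⟩ := mix_fintype hT h hcard G hG hGb hδ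
  refine ⟨L, fun a b ha hb' hab => ?_⟩
  let n : κ → ℕ := fun s => match s with
    | Sum.inl i => a i
    | Sum.inr i => b i
  have h1 := hL n (by
    rintro (i | i) (j | j) hij
    · exact ha i i.2 j j.2 (fun h2 => hij (by rw [Subtype.ext h2]))
    · exact hab i i.2 j j.2
    · exact (hab j j.2 i i.2).symm
    · exact hb' i i.2 j j.2 (fun h2 => hij (by rw [Subtype.ext h2])))
  have e1 : ∏ s, ∫ x, G s x ∂μ = 0 := by
    refine Finset.prod_eq_zero (Finset.mem_univ (Sum.inl ⟨i0, hi0⟩)) ?_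
    exact h0 i0
  rw [e1, sub_zero] at h1
  refine le_trans (le_of_eq ?_) h1.le
  congr 1
  refine integral_congr_ae (Eventually.of_forall (fun x => ?_))
  simp only [κ]
  rw [Fintype.prod_sum_type]
  simp only [G, n]
  rw [map_prod]
  congr 1
  · exact (Finset.prod_coe_sort J (fun i => g i ((⇑T)^[a i] x))).symm
  · exact (Finset.prod_coe_sort J (fun i => conj (g i ((⇑T)^[b i] x)))).symm

/-- A maximal subfamily of mutually separated members. -/
theorem exists_maximal {ι : Type*} [DecidableEq ι] [Fintype ι] (L : ℕ) (J : Finset ι)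
    (P : Finset (ι → ℕ)) : ∃ M ⊆ P, (∀ a ∈ M, ∀ b ∈ M, a ≠ b → Cross L J a b) ∧
      ∀ a ∈ P, a ∉ M → ∃ b ∈ M, ¬ Cross L J a b := by
  classical
  let F := P.powerset.filter (fun M => ∀ a ∈ M, ∀ b ∈ M, a ≠ b → Cross L J a b)
  have hF : F.Nonempty := ⟨∅, by simp [F]⟩
  obtain ⟨M, hM, hmax⟩ := Finset.exists_max_image F Finset.card hF
  simp only [F, Finset.mem_filter, Finset.mem_powerset] at hM hmax
  refine ⟨M, hM.1, hM.2, fun a ha haM => ?_⟩
  by_contra hcon
  push Not at hcon
  have h1 := hmax (insert a M) ⟨Finset.insert_subset ha hM.1, by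
    intro c hc d hd hcd
    rcases Finset.mem_insert.1 hc with hc1 | hc1
    · rcases Finset.mem_insert.1 hd with hd1 | hd1
      · exact absurd (hc1.trans hd1.symm) hcd
      · rw [hc1]
        exact hcon d hd1
    · rcases Finset.mem_insert.1 hd with hd1 | hd1
      · rw [hd1]
        exact (hcon c hc1).symm
      · exact hM.2 c hc1 d hd1 hcd⟩
  rw [Finset.card_insert_of_notMem haM] at h1
  omega

/-- **Uniformly bounded number of exceptions.** -/
theorem uniform {μ : Measure X} [IsProbabilityMeasure μ] {T : X ≃ᵐ X}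
    (hT : MeasurePreserving T μ μ) {k : ℕ} (h : MixK μ T k) {ι : Type*} [DecidableEq ι]
    [Fintype ι] (g : ι → X → ℂ) (hg : ∀ i, Measurable (g i)) (hb : ∀ i x, ‖g i x‖ ≤ 1)
    (h0 : ∀ i, ∫ x, g i x ∂μ = 0) {ε : ℝ} (hε : 0 < ε) :
    ∀ (c : ℕ) (J : Finset ι), J.card = c → 2 * c ≤ k + 1 → ∃ K L : ℕ,
      ∀ Φ : X → ℂ, Measurable Φ → (∀ x, ‖Φ x‖ ≤ 1) → ∀ (b : ι → ℕ) (P : Finset (ι → ℕ)),
        (∀ a ∈ P, (∀ i, i ∉ J → a i = b i) ∧ Sep L J a ∧
          ε ≤ ‖∫ x, Φ x * ∏ i ∈ J, g i ((⇑T)^[a i] x) ∂μ‖) → P.card ≤ K := by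
  classical
  intro c
  induction c with
  | zero =>
    intro J hJ _
    refine ⟨1, 0, fun Φ _ _ b P hP => ?_⟩
    rw [Finset.card_eq_zero] at hJ
    subst hJ
    rw [Finset.card_le_one]
    intro a ha a' ha'
    funext i
    rw [(hP a ha).1 i (by simp), (hP a' ha').1 i (by simp)]
  | succ c ih =>
    intro J hJ hck
    have hJne : J.Nonempty := Finset.card_pos.1 (by omega)
    have hrec : ∀ i : ι, ∃ K L : ℕ, i ∈ J →
      ∀ Φ : X → ℂ, Measurable Φ → (∀ x, ‖Φ x‖ ≤ 1) → ∀ (b : ι → ℕ) (P : Finset (ι → ℕ)),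
        (∀ a ∈ P, (∀ j, j ∉ J.erase i → a j = b j) ∧ Sep L (J.erase i) a ∧
          ε ≤ ‖∫ x, Φ x * ∏ j ∈ J.erase i, g j ((⇑T)^[a j] x) ∂μ‖) → P.card ≤ K := by
      intro i
      by_cases hi : i ∈ J
      · obtain ⟨K, L, hKL⟩ := ih (J.erase i) (by rw [Finset.card_erase_of_mem hi, hJ]; rfl)
          (by omega)
        exact ⟨K, L, fun _ => hKL⟩
      · exact ⟨0, 0, fun h1 => absurd h1 hi⟩
    choose K L hKL using hrec
    obtain ⟨L0, hL0⟩ := gram hT h g hg hb h0 hJne (by rw [hJ]; exact hck)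
      (δ := ε ^ 2 / 2) (by positivity)
    let Lm : ℕ := L0 + ∑ i ∈ J, L i
    let Km : ℕ := ∑ i ∈ J, K i
    have hLi : ∀ i ∈ J, L i ≤ Lm := by
      intro i hi
      have : L i ≤ ∑ i ∈ J, L i := Finset.single_le_sum (fun _ _ => Nat.zero_le _) hi
      simp only [Lm]
      omega
    have hKi : ∀ i ∈ J, K i ≤ Km := fun i hi =>
      Finset.single_le_sum (f := fun i => K i) (fun _ _ => Nat.zero_le _) hi
    let m0 : ℕ := ⌊2 / ε ^ 2⌋₊
    refine ⟨J.card * ((m0 * (J.card * (2 * Lm + 1))) * Km), Lm, fun Φ hΦ hΦb b P hP => ?_⟩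
    obtain ⟨M, hMP, hM1, hM2⟩ := exists_maximal Lm J P
    -- the size of `M`
    have hMcard : M.card ≤ m0 := by
      have h1 := bessel M (fun a x => ∏ i ∈ J, g i ((⇑T)^[a i] x))
        (fun a => Finset.measurable_prod _ (fun i _ => (hg i).comp (iter_meas T (a i))))
        (fun a x => norm_prod_le_one J _ (fun i => hb i _)) (μ := μ) hε
        (fun a ha a' ha' haa' => hL0 a a'
          ((hP a (hMP ha)).2.1.mono (by simp only [Lm]; omega) (Finset.Subset.refl _))
          ((hP a' (hMP ha')).2.1.mono (by simp only [Lm]; omega) (Finset.Subset.refl _))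
          (fun i hi j hj => by
            have h2 : L0 ≤ Lm := by simp only [Lm]; omega
            rcases hM1 a ha a' ha' haa' i hi j hj with h3 | h3
            · exact Or.inl (by omega)
            · exact Or.inr (by omega)))
        Φ hΦ hΦb (fun a ha => (hP a (hMP ha)).2.2)
      refine Nat.le_floor ?_
      rw [le_div_iff₀ (by positivity)]
      exact h1
    let W : Finset ℕ := M.biUnion (fun a' => J.biUnion (fun j =>
      Finset.Icc (a' j - Lm) (a' j + Lm)))
    have hWcard : W.card ≤ m0 * (J.card * (2 * Lm + 1)) := by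
      refine (Finset.card_biUnion_le_card_mul _ _ (J.card * (2 * Lm + 1)) (fun a' _ => ?_)).trans
        (Nat.mul_le_mul_right _ hMcard)
      refine Finset.card_biUnion_le_card_mul _ _ (2 * Lm + 1) (fun j _ => ?_)
      rw [Nat.card_Icc]
      omega
    have hcover : P ⊆ J.biUnion (fun i => W.biUnion (fun w => P.filter (fun a => a i = w))) := by
      intro a ha
      have hkey : ∃ a' ∈ M, ¬ Cross Lm J a a' := by
        by_cases haM : a ∈ M
        · obtain ⟨i, hi⟩ := hJne
          refine ⟨a, haM, fun h1 => ?_⟩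
          rcases h1 i hi i hi with h2 | h2 <;> omega
        · exact hM2 a ha haM
      obtain ⟨a', ha', hcr⟩ := hkey
      unfold Cross at hcr
      push Not at hcr
      obtain ⟨i, hi, j, hj, h1, h2⟩ := hcr
      simp only [Finset.mem_biUnion, Finset.mem_filter]
      refine ⟨i, hi, a i, ?_, ha, rfl⟩
      simp only [W, Finset.mem_biUnion, Finset.mem_Icc]
      exact ⟨a', ha', j, hj, by omega, by omega⟩
    have hfib : ∀ i ∈ J, ∀ w, (P.filter (fun a => a i = w)).card ≤ Km := by
      intro i hi w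
      refine (hKL i hi (fun x => Φ x * g i ((⇑T)^[w] x))
        (hΦ.mul ((hg i).comp (iter_meas T w)))
        (fun x => by
          rw [norm_mul]
          exact mul_le_one₀ (hΦb x) (norm_nonneg _) (hb i _))
        (Function.update b i w) _ ?_).trans (hKi i hi)
      intro a ha
      rw [Finset.mem_filter] at ha
      obtain ⟨ha1, ha2⟩ := ha
      obtain ⟨h1, h2, h3⟩ := hP a ha1
      refine ⟨fun j hj => ?_, h2.mono (hLi i hi) (Finset.erase_subset _ _), ?_⟩
      · by_cases hji : j = i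
        · subst hji
          rw [Function.update_self, ha2]
        · rw [Function.update_of_ne hji]
          exact h1 j (fun h4 => hj (Finset.mem_erase.2 ⟨hji, h4⟩))
      · refine h3.trans (le_of_eq ?_)
        congr 1
        refine integral_congr_ae (Eventually.of_forall (fun x => ?_))
        simp only
        rw [← Finset.mul_prod_erase J (fun i => g i ((⇑T)^[a i] x)) hi, ← ha2, mul_assoc]
    calc P.card ≤ (J.biUnion (fun i => W.biUnion (fun w => P.filter (fun a => a i = w)))).card :=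
          Finset.card_le_card hcover
      _ ≤ J.card * ((m0 * (J.card * (2 * Lm + 1))) * Km) := by
          refine Finset.card_biUnion_le_card_mul _ _ _ (fun i hi => ?_)
          refine (Finset.card_biUnion_le_card_mul _ _ Km (fun w _ => hfib i hi w)).trans ?_
          exact Nat.mul_le_mul_right _ hWcard

end Pool.Agent.TH250.Rok
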